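import Pool.Agent.Q244.LK.Hom
import Pool.Agent.W332.SL7.Stmt

/-!
# Relations between `p`-adic logarithms of units with coefficients in a given space
-/

set_option autoImplicit false

namespace Pool.Agent.Q244.LK

open NumberField TensorProduct Module
open Pool.Agent.W289.SL Pool.Agent.W332.SL6
open Pool.Agent.W254.PA (Hyp LtE LgP exists_pow_near norm_ic ic)
open Pool.Agent.W332.SL7 (Coords QSub FinQ)

/-- A finite normal extension which contains given algebraic numbers. -/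
theorem exists_normal {Ω : Type*} [Field Ω] [CharZero Ω] [IsAlgClosed Ω] {m : ℕ} (w : Fin m → Ω)
    (hw : ∀ j, IsAlgebraic ℚ (w j)) : ∃ F : IntermediateField ℚ Ω, FiniteDimensional ℚ F ∧
      Normal ℚ F ∧ ∀ j, w j ∈ F := by
  classical
  let P : Polynomial ℚ := ∏ j, minpoly ℚ (w j)
  have hP : P ≠ 0 := Finset.prod_ne_zero_iff.2 fun j _ => minpoly.ne_zero (hw j).isIntegral
  let F : IntermediateField ℚ Ω := IntermediateField.adjoin ℚ (P.rootSet Ω)
  have hs : Polynomial.IsSplittingField ℚ F P :=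
    IntermediateField.adjoin_rootSet_isSplittingField (IsAlgClosed.splits _)
  refine ⟨F, Polynomial.IsSplittingField.finiteDimensional F P, Normal.of_isSplittingField P, ?_⟩
  intro j
  apply IntermediateField.subset_adjoin
  rw [Polynomial.mem_rootSet]
  refine ⟨hP, ?_⟩
  rw [map_prod]
  exact Finset.prod_eq_zero (Finset.mem_univ j) (minpoly.aeval ℚ (w j))

section near

variable {p : ℕ} [hp : Fact p.Prime]

theorem nearU_of_norm {u : ℂ_[p]} (halg : IsAlgebraic ℚ u) (h : ‖u‖ = 1) : NearU u := by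
  refine ⟨?_, halg, ?_⟩
  · rintro rfl
    rw [norm_zero] at h
    exact zero_ne_one h
  · intro δ hδ
    obtain ⟨v, -, hv⟩ := pre_alg halg
    have h1 : ‖v‖ = 1 := by
      rw [← norm_ic, hv]
      exact h
    obtain ⟨N, hN, h2⟩ := exists_pow_near p v h1 δ hδ
    refine ⟨N, hN, ?_⟩
    rw [← hv]
    have h3 : ic p v ^ N - 1 = ic p (v ^ N - 1) := by rw [map_sub, map_pow, map_one]
    rw [h3, norm_ic]
    exact h2

theorem norm_of_nearU {u : ℂ_[p]} (h : NearU u) : ‖u‖ = 1 := by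
  obtain ⟨M, hM, h1⟩ := h.near 1 one_pos
  have h2 : ‖u ^ M‖ = 1 := by
    have h3 : u ^ M = (u ^ M - 1) + 1 := by ring
    have h4 : ‖u ^ M - 1‖ ≠ ‖(1 : ℂ_[p])‖ := by
      rw [norm_one]
      exact h1.ne
    rw [h3, IsUltrametricDist.norm_add_eq_max_of_norm_ne_norm h4, norm_one]
    exact max_eq_right h1.le
  rw [norm_pow] at h2
  exact (pow_eq_one_iff_of_nonneg (norm_nonneg u) (by omega)).1 h2

theorem nearU_mul {u v : ℂ_[p]} (hu : NearU u) (hv : NearU v) : NearU (u * v) :=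
  nearU_of_norm (hu.alg.mul hv.alg) (by rw [norm_mul, norm_of_nearU hu, norm_of_nearU hv, one_mul])

theorem nearU_inv {u : ℂ_[p]} (hu : NearU u) : NearU u⁻¹ :=
  nearU_of_norm hu.alg.inv (by rw [norm_inv, norm_of_nearU hu, inv_one])

theorem nearU_pow {u : ℂ_[p]} (hu : NearU u) (n : ℕ) : NearU (u ^ n) :=
  nearU_of_norm (hu.alg.pow n) (by rw [norm_pow, norm_of_nearU hu, one_pow])

theorem nearU_zpow {u : ℂ_[p]} (hu : NearU u) (n : ℤ) : NearU (u ^ n) := by
  rcases Int.eq_nat_or_neg n with ⟨m, hm | hm⟩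
  · rw [hm, zpow_natCast]
    exact nearU_pow hu m
  · rw [hm, zpow_neg, zpow_natCast]
    exact nearU_inv (nearU_pow hu m)

theorem nearU_one : NearU (1 : ℂ_[p]) := nearU_of_norm isAlgebraic_one norm_one

theorem nearU_prod {ι : Type*} (s : Finset ι) (u : ι → ℂ_[p]) (h : ∀ i ∈ s, NearU (u i)) :
    NearU (∏ i ∈ s, u i) := by
  classical
  induction s using Finset.induction_on with
  | empty => simpa using nearU_one
  | insert a s ha ih =>
    rw [Finset.prod_insert ha]
    exact nearU_mul (h a (Finset.mem_insert_self a s))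
      (ih fun i hi => h i (Finset.mem_insert_of_mem hi))

theorem nearU_root {u v : ℂ_[p]} (hu : NearU u) {n : ℕ} (hn : n ≠ 0) (h : v ^ n = u) : NearU v := by
  refine nearU_of_norm (IsAlgebraic.of_pow (Nat.pos_of_ne_zero hn) (h ▸ hu.alg)) ?_
  have h1 := norm_of_nearU hu
  rw [← h, norm_pow] at h1
  exact (pow_eq_one_iff_of_nonneg (norm_nonneg v) hn).1 h1

end near

section logs

variable {p : ℕ} [hp : Fact p.Prime] {L : ℂ_[p] → ℂ_[p]} (hL : IsIwasawaLog p L)

include hL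

theorem log_zpow {u : ℂ_[p]} (hu : u ≠ 0) (n : ℤ) : L (u ^ n) = n * L u := by
  rcases Int.eq_nat_or_neg n with ⟨m, hm | hm⟩
  · rw [hm, zpow_natCast, hL.pow hu]
    push_cast
    rfl
  · have h1 : L (u ^ m * (u ^ m)⁻¹) = L (u ^ m) + L ((u ^ m)⁻¹) :=
      hL.mul _ _ (pow_ne_zero _ hu) (inv_ne_zero (pow_ne_zero _ hu))
    rw [mul_inv_cancel₀ (pow_ne_zero _ hu)] at h1
    have h2 : L 1 = 0 := by
      have h := hL.mul 1 1 one_ne_zero one_ne_zero
      rw [mul_one] at h
      exact left_eq_add.1 h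
    rw [h2, hL.pow hu] at h1
    rw [hm, zpow_neg, zpow_natCast]
    push_cast
    linear_combination -h1

theorem log_one : L 1 = 0 := by
  have h := hL.mul 1 1 one_ne_zero one_ne_zero
  rw [mul_one] at h
  exact left_eq_add.1 h

theorem log_prod {ι : Type*} (s : Finset ι) (u : ι → ℂ_[p]) (h : ∀ i ∈ s, u i ≠ 0) :
    L (∏ i ∈ s, u i) = ∑ i ∈ s, L (u i) := by
  classical
  induction s using Finset.induction_on with
  | empty => simpa using log_one hL
  | insert a s ha ih =>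
    rw [Finset.prod_insert ha, Finset.sum_insert ha,
      hL.mul _ _ (h a (Finset.mem_insert_self a s))
        (Finset.prod_ne_zero_iff.2 fun i hi => h i (Finset.mem_insert_of_mem hi)),
      ih fun i hi => h i (Finset.mem_insert_of_mem hi)]

/-- The logarithms. -/
noncomputable def Lam : Submodule ℚ ℂ_[p] where
  carrier := {z | ∃ u, NearU u ∧ z = L u}
  add_mem' := by
    rintro _ _ ⟨u, hu, rfl⟩ ⟨v, hv, rfl⟩
    exact ⟨u * v, nearU_mul hu hv, (hL.mul u v hu.ne hv.ne).symm⟩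
  zero_mem' := ⟨1, nearU_one, (log_one hL).symm⟩
  smul_mem' := by
    rintro c _ ⟨u, hu, rfl⟩
    obtain ⟨v, hv⟩ := IsAlgClosed.exists_pow_nat_eq (u ^ c.num) c.den_pos
    have hv' : NearU v := nearU_root (nearU_zpow hu _) c.den_nz hv
    refine ⟨v, hv', ?_⟩
    have h3 := hL.pow hv'.ne c.den
    rw [hv, log_zpow hL hu.ne] at h3
    have hden : (c.den : ℂ_[p]) ≠ 0 := by exact_mod_cast c.den_nz
    rw [Rat.smul_def]
    have h4 : (c : ℂ_[p]) = c.num / c.den := by
      exact_mod_cast (Rat.num_div_den c).symm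
    rw [h4]
    field_simp
    linear_combination h3

theorem bakerH : BakerH (algebraicClosure ℚ ℂ_[p]) (Lam hL) := by
  intro m b hb hli c h
  choose u hu h3 using hb
  have e : b = fun i => L (u i) := funext h3
  rw [e] at hli h
  intro i
  have h1 := brumerC hL u hu hli (fun i => (c i : ℂ_[p]))
    (fun i => mem_algebraicClosure_iff.mp (c i).2) (by
      rw [← h]
      refine Finset.sum_congr rfl fun i _ => ?_
      rw [Algebra.smul_def]
      rfl) i
  exact Subtype.ext h1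

theorem hypLam : Hyp (Submodule.span (algebraicClosure ℚ ℂ_[p]) (Lam hL : Set ℂ_[p])) := by
  intro d l x a hx ha hxa hcol
  refine hypC d l x a hx (fun i j => ?_) hxa hcol
  refine Submodule.span_mono ?_ (ha i j)
  rintro z ⟨u, hu, rfl⟩
  exact Or.inr (log_mem hL hu)

/-- **One number field.** -/
theorem field_of_space (A : QSub ℂ_[p]) [FiniteDimensional (algebraicClosure ℚ ℂ_[p]) A] :
    ∃ F : IntermediateField ℚ ℂ_[p], FiniteDimensional ℚ F ∧ Normal ℚ F ∧
      ∀ (n : ℕ) (c u : Fin n → ℂ_[p]), (∀ i, c i ∈ A) →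
        (∀ w : Fin n → ℚ, ∑ i, (w i : ℂ_[p]) * c i = 0 → w = 0) → (∀ i, NearU (u i)) →
        ∑ i, c i * L (u i) = 0 → ∀ i, ∃ m : ℕ, 1 ≤ m ∧ u i ^ m ∈ F := by
  classical
  obtain ⟨Λ', h1, h2, h3⟩ := relations (hypLam hL) (bakerH hL) A
  let b := Module.finBasis ℚ Λ'
  have hb : ∀ j, ∃ w, NearU w ∧ ((b j : Λ') : ℂ_[p]) = L w := fun j => h1 (b j).2
  choose w hw hbw using hb
  obtain ⟨F, hF1, hF2, hwF⟩ := exists_normal w fun j => (hw j).alg
  refine ⟨F, hF1, hF2, ?_⟩
  intro n c u hc hci hu h0 i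
  have hz := h3 n c (fun i => L (u i)) hc (fun i => ⟨u i, hu i, rfl⟩) h0 (fun w hw => hci w (by
    rw [← hw]
    exact Finset.sum_congr rfl fun i _ => (Rat.smul_def _ _).symm)) i
  -- the coordinates of the logarithm
  set q : Fin (finrank ℚ Λ') → ℚ := fun j => b.repr ⟨L (u i), hz⟩ j with hq
  have hsum : L (u i) = ∑ j, (q j : ℂ_[p]) * L (w j) := by
    have := congrArg (fun z : Λ' => (z : ℂ_[p])) (b.sum_repr ⟨L (u i), hz⟩)
    simp only at this
    rw [← this]
    push_cast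
    refine Finset.sum_congr rfl fun j _ => ?_
    rw [hbw, Rat.smul_def]
  let N : ℕ := ∏ j, (q j).den
  have hN : N ≠ 0 := Finset.prod_ne_zero_iff.2 fun j _ => (q j).den_nz
  have hm : ∀ j, ∃ m : ℤ, (m : ℚ) = N * q j := by
    intro j
    obtain ⟨t, ht⟩ : (q j).den ∣ N := Finset.dvd_prod_of_mem _ (Finset.mem_univ j)
    refine ⟨t * (q j).num, ?_⟩
    rw [ht]
    push_cast
    have h4 : ((q j).den : ℚ) ≠ 0 := by exact_mod_cast (q j).den_nz
    have h5 : q j * (q j).den = (q j).num := Rat.mul_den_eq_num _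
    linear_combination (-(t : ℚ)) * h5
  choose m hm using hm
  set P : ℂ_[p] := ∏ j, w j ^ m j with hP
  have hPn : NearU P := nearU_prod _ _ fun j _ => nearU_zpow (hw j) _
  have hLP : L P = N * L (u i) := by
    rw [hP, log_prod hL _ _ fun j _ => (nearU_zpow (hw j) _).ne, hsum, Finset.mul_sum]
    refine Finset.sum_congr rfl fun j _ => ?_
    rw [log_zpow hL (hw j).ne]
    have : ((m j : ℤ) : ℂ_[p]) = N * (q j : ℂ_[p]) := by exact_mod_cast congrArg (Rat.cast : ℚ → ℂ_[p]) (hm j)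
    rw [this, mul_assoc]
  have hv : NearU (u i ^ N * P⁻¹) := nearU_mul (nearU_pow (hu i) N) (nearU_inv hPn)
  have hLv : L (u i ^ N * P⁻¹) = 0 := by
    rw [hL.mul _ _ (nearU_pow (hu i) N).ne (nearU_inv hPn).ne, hL.pow (hu i).ne]
    have h4 := log_zpow hL hPn.ne (-1)
    rw [zpow_neg_one] at h4
    rw [h4, hLP]
    push_cast
    ring
  obtain ⟨M, hM, hM1⟩ := exists_pow_one hL hv hLv
  refine ⟨N * M, Nat.one_le_iff_ne_zero.2 (Nat.mul_ne_zero hN (by omega)), ?_⟩
  have h5 : u i ^ (N * M) = P ^ M := by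
    rw [mul_pow, inv_pow, ← pow_mul] at hM1
    have h6 := pow_ne_zero M hPn.ne
    field_simp at hM1
    exact hM1
  rw [h5]
  refine pow_mem (prod_mem fun j _ => zpow_mem ?_ _) _
  exact hwF j

end logs

section tensor

variable {Ω : Type} [Field Ω] [CharZero Ω] {G : Type} [AddCommGroup G]

theorem rep (A : QSub Ω) (x : Ω ⊗[ℤ] G) (hx : Coords A x) :
    ∃ (n : ℕ) (c : Fin n → Ω) (u : Fin n → G), (∀ i, c i ∈ A) ∧
      (∀ w : Fin n → ℚ, ∑ i, w i • c i = 0 → w = 0) ∧ x = ∑ i, c i ⊗ₜ[ℤ] u i := by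
  classical
  have h1 : ∃ (n : ℕ) (a : Fin n → Ω) (g : Fin n → G), (∀ i, a i ∈ A) ∧
      x = ∑ i, a i ⊗ₜ[ℤ] g i := by
    refine AddSubmonoid.closure_induction (motive := fun x _ => ∃ (n : ℕ) (a : Fin n → Ω)
      (g : Fin n → G), (∀ i, a i ∈ A) ∧ x = ∑ i, a i ⊗ₜ[ℤ] g i) ?_ ?_ ?_ hx
    · rintro _ ⟨a, ha, u, rfl⟩
      exact ⟨1, fun _ => a, fun _ => u, fun _ => ha, by simp⟩
    · exact ⟨0, Fin.elim0, Fin.elim0, fun i => Fin.elim0 i, by simp⟩
    · rintro x y - - ⟨n, a, g, h2, h3⟩ ⟨m, b, h, h4, h5⟩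
      refine ⟨n + m, Fin.append a b, Fin.append g h, ?_, ?_⟩
      · intro i
        refine Fin.addCases (fun j => ?_) (fun j => ?_) i
        · rw [Fin.append_left]
          exact h2 j
        · rw [Fin.append_right]
          exact h4 j
      · rw [Fin.sum_univ_add, h3, h5]
        simp only [Fin.append_left, Fin.append_right]
  obtain ⟨n, a, g, ha, hx⟩ := h1
  let W : Submodule ℚ Ω := Submodule.span ℚ (Set.range a)
  have hWfin : FiniteDimensional ℚ W := FiniteDimensional.span_of_finite ℚ (Set.finite_range a)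
  have hWA : ∀ z ∈ W, z ∈ A := by
    intro z hz
    refine Submodule.span_induction (p := fun z _ => z ∈ A) ?_ (zero_mem _)
      (fun _ _ _ _ h1 h2 => add_mem h1 h2) ?_ hz
    · rintro _ ⟨i, rfl⟩
      exact ha i
    · intro q z _ hz
      rw [Pool.Agent.Q244.OC.qsmul (k := algebraicClosure ℚ Ω)]
      exact A.smul_mem _ hz
  let b := Module.finBasis ℚ W
  let q : Fin n → Fin (finrank ℚ W) → ℚ := fun i j =>
    b.repr ⟨a i, Submodule.subset_span ⟨i, rfl⟩⟩ j
  have hsum : ∀ i, a i = ∑ j, (q i j) • ((b j : W) : Ω) := by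
    intro i
    have := congrArg (fun z : W => (z : Ω)) (b.sum_repr ⟨a i, Submodule.subset_span ⟨i, rfl⟩⟩)
    simp only at this
    conv_lhs => rw [← this]
    push_cast
    rfl
  let N : ℕ := ∏ i, ∏ j, (q i j).den
  have hN : N ≠ 0 := Finset.prod_ne_zero_iff.2 fun i _ =>
    Finset.prod_ne_zero_iff.2 fun j _ => (q i j).den_nz
  have hNq : (N : ℚ) ≠ 0 := by exact_mod_cast hN
  have hm : ∀ i j, ∃ m : ℤ, (m : ℚ) = N * q i j := by
    intro i j
    obtain ⟨t, ht⟩ : (q i j).den ∣ N :=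
      (Finset.dvd_prod_of_mem (fun j => (q i j).den) (Finset.mem_univ j)).trans
        (Finset.dvd_prod_of_mem (fun i => ∏ j, (q i j).den) (Finset.mem_univ i))
    refine ⟨t * (q i j).num, ?_⟩
    rw [ht]
    push_cast
    have h5 : q i j * (q i j).den = (q i j).num := Rat.mul_den_eq_num _
    linear_combination (-(t : ℚ)) * h5
  choose m hm using hm
  refine ⟨finrank ℚ W, fun j => (N : ℚ)⁻¹ • ((b j : W) : Ω), fun j => ∑ i, m i j • g i, ?_, ?_, ?_⟩
  · intro j
    exact hWA _ (W.smul_mem _ (b j).2)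
  · intro w hw
    have h2 : ∑ j, (w j * (N : ℚ)⁻¹) • ((b j : W) : Ω) = 0 := by
      rw [← hw]
      refine Finset.sum_congr rfl fun j _ => ?_
      rw [mul_smul]
    have h3 := (Fintype.linearIndependent_iff.1
      (b.linearIndependent.map' W.subtype (Submodule.ker_subtype _))) _ h2
    funext j
    exact (mul_eq_zero.1 (h3 j)).resolve_right (inv_ne_zero hNq)
  · rw [hx]
    have h4 : ∀ i, a i = ∑ j, m i j • ((N : ℚ)⁻¹ • ((b j : W) : Ω)) := by
      intro i
      rw [hsum i]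
      refine Finset.sum_congr rfl fun j _ => ?_
      rw [← Int.cast_smul_eq_zsmul ℚ, smul_smul, hm]
      congr 1
      field_simp
    calc ∑ i, a i ⊗ₜ[ℤ] g i = ∑ i, ∑ j, ((N : ℚ)⁻¹ • ((b j : W) : Ω)) ⊗ₜ[ℤ] (m i j • g i) := by
          refine Finset.sum_congr rfl fun i _ => ?_
          conv_lhs => rw [h4 i, TensorProduct.sum_tmul]
          refine Finset.sum_congr rfl fun j _ => ?_
          rw [TensorProduct.smul_tmul]
      _ = ∑ j, ((N : ℚ)⁻¹ • ((b j : W) : Ω)) ⊗ₜ[ℤ] (∑ i, m i j • g i) := by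
          rw [Finset.sum_comm]
          refine Finset.sum_congr rfl fun j _ => ?_
          rw [TensorProduct.tmul_sum]

end tensor

end Pool.Agent.Q244.LK
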