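import Pool.Agent.Q244.LK.Cp

/-!
# Elements of `ℂ_p ⊗ 𝓞_K^×` with coordinates in a given space and vanishing logarithm
-/

set_option autoImplicit false

namespace Pool.Agent.Q244.LK

open NumberField TensorProduct Module
open Pool.Agent.W289.SL Pool.Agent.W332.SL6
open Pool.Agent.W332.SL7 (Coords QSub FinQ push_injective)

section desc

variable {p : ℕ} [hp : Fact p.Prime]

theorem int_sub {K : Type} [Field K] [NumberField K] (K₀ : IntermediateField ℚ K) (a : 𝓞 K)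
    (h : (a : K) ∈ K₀) : ∃ b : 𝓞 K₀, ((b : K₀) : K) = (a : K) := by
  refine ⟨⟨⟨(a : K), h⟩, ?_⟩, rfl⟩
  have h1 : IsIntegral ℤ (a : K) := a.2
  have h2 : IsIntegral ℤ (algebraMap K₀ K ⟨(a : K), h⟩) := h1
  exact (isIntegral_algebraMap_iff (algebraMap K₀ K).injective).1 h2

theorem unit_sub {K : Type} [Field K] [NumberField K] (K₀ : IntermediateField ℚ K) (u : (𝓞 K)ˣ)
    (h : ((u : 𝓞 K) : K) ∈ K₀) : ∃ v : (𝓞 K₀)ˣ, (((v : 𝓞 K₀) : K₀) : K) = ((u : 𝓞 K) : K) := by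
  have h1 : (((u⁻¹ : (𝓞 K)ˣ) : 𝓞 K) : K) = (((u : 𝓞 K) : K))⁻¹ := by
    have h2 : ((u : 𝓞 K) : K) * (((u⁻¹ : (𝓞 K)ˣ) : 𝓞 K) : K) = 1 := by
      rw [← map_mul, ← Units.val_mul, mul_inv_cancel, Units.val_one, map_one]
    exact eq_inv_of_mul_eq_one_right h2
  obtain ⟨b, hb⟩ := int_sub K₀ (u : 𝓞 K) h
  obtain ⟨b', hb'⟩ := int_sub K₀ ((u⁻¹ : (𝓞 K)ˣ) : 𝓞 K) (by rw [h1]; exact inv_mem h)
  have h3 : b * b' = 1 := by
    apply RingOfIntegers.ext
    apply Subtype.ext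
    show ((b : K₀) : K) * ((b' : K₀) : K) = (1 : K)
    rw [hb, hb', h1, mul_inv_cancel₀ (by simp)]
  exact ⟨⟨b, b', h3, by rw [mul_comm]; exact h3⟩, hb⟩

theorem coords_sum {Ω : Type} [Field Ω] [CharZero Ω] {G : Type} [AddCommGroup G] {A : QSub Ω}
    {n : ℕ} (c : Fin n → Ω) (u : Fin n → G) (hc : ∀ i, c i ∈ A) :
    Coords A (∑ i, c i ⊗ₜ[ℤ] u i) :=
  AddSubmonoid.sum_mem _ fun i _ => AddSubmonoid.subset_closure ⟨c i, hc i, u i, rfl⟩

theorem descend {K : Type} [Field K] [NumberField K] (K₀ : IntermediateField ℚ K)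
    {A : QSub ℂ_[p]} {n : ℕ} (c : Fin n → ℂ_[p]) (u : Fin n → Additive (𝓞 K)ˣ)
    (hc : ∀ i, c i ∈ A)
    (h : ∀ i, ∃ m : ℕ, 1 ≤ m ∧ (((Additive.toMul (u i) : (𝓞 K)ˣ) : 𝓞 K) : K) ^ m ∈ K₀) :
    ∃ x₀ : UM p K₀, Coords A x₀ ∧ push (algebraMap K₀ K) x₀ = ∑ i, c i ⊗ₜ[ℤ] u i := by
  choose m hm hmu using h
  have h1 : ∀ i, ∃ v : (𝓞 K₀)ˣ, (((v : 𝓞 K₀) : K₀) : K) =
      (((Additive.toMul (u i) ^ m i : (𝓞 K)ˣ) : 𝓞 K) : K) := by
    intro i
    apply unit_sub
    have h2 : (((Additive.toMul (u i) ^ m i : (𝓞 K)ˣ) : 𝓞 K) : K) =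
        (((Additive.toMul (u i) : (𝓞 K)ˣ) : 𝓞 K) : K) ^ m i := by
      rw [Units.val_pow_eq_pow_val]
      exact map_pow (algebraMap (𝓞 K) K) _ _
    rw [h2]
    exact hmu i
  choose v hv using h1
  have hu : ∀ i, uMap (algebraMap K₀ K) (Additive.ofMul (v i)) = m i • u i := by
    intro i
    apply Additive.toMul.injective
    apply Units.ext
    apply RingOfIntegers.ext
    rw [toMul_nsmul, ← hv i]
    rfl
  refine ⟨∑ i, ((m i : ℂ_[p])⁻¹ * c i) ⊗ₜ[ℤ] Additive.ofMul (v i), coords_sum _ _ fun i => ?_, ?_⟩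
  · have h2 : (m i : ℂ_[p])⁻¹ * c i = ((m i : algebraicClosure ℚ ℂ_[p])⁻¹) • c i := by
      rw [Algebra.smul_def, map_inv₀, map_natCast]
    rw [h2]
    exact A.smul_mem _ (hc i)
  · rw [map_sum]
    refine Finset.sum_congr rfl fun i _ => ?_
    rw [push_tmul, hu]
    have h3 : (m i : ℂ_[p]) ≠ 0 := by
      have := hm i
      exact_mod_cast (by omega : m i ≠ 0)
    have h4 : c i = (m i : ℤ) • ((m i : ℂ_[p])⁻¹ * c i) := by
      rw [zsmul_eq_mul]
      push_cast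
      field_simp
    conv_rhs => rw [h4, TensorProduct.smul_tmul]
    rw [natCast_zsmul]

end desc

section main

variable {p : ℕ} [hp : Fact p.Prime] {L : ℂ_[p] → ℂ_[p]} (hL : IsIwasawaLog p L)

/-- **One number field for all the elements with vanishing logarithm and coordinates in `A`.** -/
theorem one_field (A : QSub ℂ_[p]) (hA : FinQ A) :
    ∃ F : IntermediateField ℚ ℂ_[p], FiniteDimensional ℚ F ∧ Normal ℚ F ∧
      ∀ (K : Type) [Field K] [NumberField K] (σ : K →+* ℂ_[p]) (x : UM p K), Coords A x →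
        logLin hL σ x = 0 →
        ∀ K₀ : IntermediateField ℚ K, (∀ z : K, σ z ∈ F → z ∈ K₀) →
          ∃ x₀ : UM p K₀, Coords A x₀ ∧ push (algebraMap K₀ K) x₀ = x := by
  have hA' : FiniteDimensional (algebraicClosure ℚ ℂ_[p]) A := hA
  obtain ⟨F, h1, h2, h3⟩ := field_of_space hL A
  refine ⟨F, h1, h2, ?_⟩
  intro K _ _ σ x hx h0 K₀ hK₀
  obtain ⟨n, c, u, hc, hci, rfl⟩ := rep A x hx
  refine descend K₀ c u hc fun i => ?_
  have h4 := h3 n c (fun i => σ ((Additive.toMul (u i) : (𝓞 K)ˣ) : 𝓞 K)) hc (fun w hw => hci w (by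
    rw [← hw]
    exact Finset.sum_congr rfl fun i _ => Rat.smul_def _ _)) (fun i => nearU_unit σ _) (by
      rw [← h0, map_sum]
      exact Finset.sum_congr rfl fun i _ => rfl) i
  obtain ⟨m, hm, hmF⟩ := h4
  refine ⟨m, hm, hK₀ _ ?_⟩
  rw [map_pow]
  exact hmF

theorem exists_ext' {K H : Type} [Field K] [NumberField K] [Field H] [NumberField H]
    (f : K →+* H) (s : K →+* ℂ_[p]) : ∃ t : H →+* ℂ_[p], t.comp f = s := by
  let := f.toAlgebra
  let := s.toAlgebra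
  have : Algebra.IsAlgebraic K H := Algebra.IsAlgebraic.tower_top (K := ℚ) K
  let φ : H →ₐ[K] ℂ_[p] := IsAlgClosed.lift
  exact ⟨φ, φ.comp_algebraMap⟩

/-- The subfield of `K` of the elements which `σ` maps to `F`. -/
noncomputable def sub {K : Type} [Field K] [NumberField K] (σ : K →+* ℂ_[p])
    (F : IntermediateField ℚ ℂ_[p]) : IntermediateField ℚ K :=
  F.comap (RingHom.toRatAlgHom σ)

theorem mem_sub {K : Type} [Field K] [NumberField K] {σ : K →+* ℂ_[p]}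
    {F : IntermediateField ℚ ℂ_[p]} {z : K} : z ∈ sub σ F ↔ σ z ∈ F := Iff.rfl

/-- `K` has a nonzero element in the Leopoldt kernel with coordinates in `A`. -/
def Ker (A : QSub ℂ_[p]) (K : Type) [Field K] [NumberField K] : Prop :=
  ∃ x : UM p K, x ≠ 0 ∧ Coords A x ∧ ∀ σ : K →+* ℂ_[p], logLin hL σ x = 0

theorem coords_map {K H : Type} [Field K] [NumberField K] [Field H] [NumberField H]
    (f : K →+* H) {A : QSub ℂ_[p]} {x : UM p K} (hx : Coords A x) : Coords A (push f x) := by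
  obtain ⟨n, c, u, hc, -, rfl⟩ := rep A x hx
  rw [map_sum]
  exact coords_sum c (fun i => uMap f (u i)) hc

variable {hL} in
theorem Ker.push {K H : Type} [Field K] [NumberField K] [Field H] [NumberField H]
    (f : K →+* H) {A : QSub ℂ_[p]} (h : Ker hL A K) : Ker hL A H := by
  obtain ⟨x, hx, h1, h2⟩ := h
  obtain ⟨θ⟩ := Pool.Agent.W254.PA.exists_theta p
  refine ⟨Pool.Agent.W332.SL6.push f x, fun h0 => hx (push_injective θ f x h0), coords_map f h1,
    fun σ => ?_⟩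
  rw [logLin_push]
  exact h2 _

/-- The subfield of `ℂ_p` of the images under `σ`. -/
theorem leo (A : QSub ℂ_[p]) (hA : FinQ A) :
    ∃ F : IntermediateField ℚ ℂ_[p], FiniteDimensional ℚ F ∧ Normal ℚ F ∧
      ∀ (K : Type) [Field K] [NumberField K] (x : UM p K), Coords A x →
        (∀ σ : K →+* ℂ_[p], logLin hL σ x = 0) → ∀ σ : K →+* ℂ_[p],
          ∃ x₀ : UM p (sub σ F), Coords A x₀ ∧ (∀ τ : sub σ F →+* ℂ_[p], logLin hL τ x₀ = 0) ∧
            push (algebraMap (sub σ F) K) x₀ = x := by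
  obtain ⟨F, h1, h2, h3⟩ := one_field hL A hA
  refine ⟨F, h1, h2, ?_⟩
  intro K _ _ x hx h0 σ
  obtain ⟨x₀, h4, h5⟩ := h3 K σ x hx (h0 σ) (sub σ F) fun z hz => hz
  refine ⟨x₀, h4, fun τ => ?_, h5⟩
  obtain ⟨t, ht⟩ := exists_ext' (algebraMap (sub σ F) K) τ
  rw [← ht, ← logLin_push, h5]
  exact h0 t

theorem units_bot {M : Type} [Field M] [NumberField M] (h : finrank ℚ M = 1) (x : UM p M) :
    x = 0 := by
  have hr : Units.rank M = 0 := by
    have h1 := Fintype.card_pos_iff.2 (inferInstance : Nonempty (InfinitePlace M))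
    have h2 := InfinitePlace.card_add_two_mul_card_eq_rank M
    have h3 : Fintype.card (InfinitePlace M) = InfinitePlace.nrRealPlaces M +
        InfinitePlace.nrComplexPlaces M := InfinitePlace.card_eq_nrRealPlaces_add_nrComplexPlaces M
    unfold Units.rank
    omega
  obtain ⟨b, hb⟩ := decomp x
  rw [hb]
  apply Finset.sum_eq_zero
  intro k
  exact absurd k.2 (by omega)

/-- **Finitely many number fields.** -/
theorem leo_fields (A : QSub ℂ_[p]) (hA : FinQ A) :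
    ∃ 𝒦 : Set (IntermediateField ℚ ℂ_[p]), 𝒦.Finite ∧
      (∀ M ∈ 𝒦, FiniteDimensional ℚ M ∧ M ≠ ⊥) ∧
      ∀ (K : Type) [Field K] [NumberField K], Ker hL A K ↔ ∃ M ∈ 𝒦, Nonempty (M →+* K) := by
  obtain ⟨F, h1, h2, h3⟩ := leo hL A hA
  let 𝒦 : Set (IntermediateField ℚ ℂ_[p]) :=
    {M | M ≤ F ∧ ∃ h : NumberField M, Ker hL A M}
  refine ⟨𝒦, ?_, ?_, ?_⟩
  · have hfin : Finite (IntermediateField ℚ F) :=
      ((Field.exists_primitive_element_iff_finite_intermediateField ℚ F).1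
        ⟨inferInstance, Field.exists_primitive_element ℚ F⟩)
    refine (Set.finite_range (fun N : IntermediateField ℚ F => IntermediateField.lift N)).subset ?_
    rintro M ⟨hM, -⟩
    exact ⟨IntermediateField.restrict hM, IntermediateField.lift_restrict hM⟩
  · rintro M ⟨hM, hN, x, hx, -⟩
    refine ⟨hN.to_finiteDimensional, ?_⟩
    rintro rfl
    apply hx
    apply units_bot
    exact IntermediateField.finrank_bot
  · intro K _ _
    constructor
    · rintro ⟨x, hx, hxA, hx0⟩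
      obtain ⟨σ⟩ : Nonempty (K →+* ℂ_[p]) := inferInstance
      obtain ⟨x₀, h4, h5, h6⟩ := h3 K x hxA hx0 σ
      have hx₀ : x₀ ≠ 0 := by
        rintro rfl
        rw [map_zero] at h6
        exact hx h6.symm
      let M : IntermediateField ℚ ℂ_[p] := (sub σ F).map (RingHom.toRatAlgHom σ)
      let e : sub σ F ≃ₐ[ℚ] M := (sub σ F).equivMap (RingHom.toRatAlgHom σ)
      have hMfin : FiniteDimensional ℚ M := e.toLinearEquiv.finiteDimensional
      have hMN : NumberField M := { to_charZero := inferInstance, to_finiteDimensional := hMfin }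
      refine ⟨M, ⟨?_, hMN, ?_⟩, ⟨((algebraMap (sub σ F) K).comp (e.symm : M →+* sub σ F))⟩⟩
      · rintro _ ⟨z, hz, rfl⟩
        exact hz
      · exact Ker.push (hL := hL) (e : sub σ F →+* M) ⟨x₀, hx₀, h4, h5⟩
    · rintro ⟨M, ⟨hM, hN, hK⟩, ⟨f⟩⟩
      exact Ker.push (hL := hL) f hK

end main

end Pool.Agent.Q244.LK
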