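import Pool.Agent.Q244.OC.Last

/-!
# Relations with coefficients in a given space, homogeneous version
-/

set_option autoImplicit false

namespace Pool.Agent.Q244.LK

open Module Finset
open Pool.Agent.W254.PA (Hyp)
open Pool.Agent.Q244.OC (lin_rel qsmul)

variable {k E : Type*} [Field k] [Field E] [Algebra k E]

/-- Baker's theorem (homogeneous) for the space `Λ`. -/
def BakerH (k : Type*) {E : Type*} [Field k] [Field E] [Algebra k E] [CharZero E]
    (Λ : Submodule ℚ E) : Prop :=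
  ∀ (m : ℕ) (b : Fin m → E), (∀ i, b i ∈ Λ) → LinearIndependent ℚ b →
    ∀ (c : Fin m → k), ∑ i, c i • b i = 0 → ∀ i, c i = 0

variable [CharZero k] [CharZero E]

/-- A functional. -/
theorem functional {Λ : Submodule ℚ E} (hB : BakerH k Λ) (Λ'' : Submodule ℚ E)
    (h : Λ'' ≤ Λ) [FiniteDimensional ℚ Λ''] (φ : Λ'' →ₗ[ℚ] ℚ) :
    ∃ Φ : E →ₗ[k] k, ∀ z : Λ'', Φ (z : E) = algebraMap ℚ k (φ z) := by
  classical
  let bb := Module.finBasis ℚ Λ''
  set m := finrank ℚ Λ''
  let v : Fin m → E := fun i => (bb i : E)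
  have hv : LinearIndependent k v := by
    rw [Fintype.linearIndependent_iff]
    intro g hg
    exact hB m (fun i => (bb i : E)) (fun i => h (bb i).2)
      (bb.linearIndependent.map' Λ''.subtype (Submodule.ker_subtype _)) g hg
  obtain ⟨Φ, hΦ⟩ : ∃ Φ : E →ₗ[k] k, ∀ o, Φ (v o) = algebraMap ℚ k (φ (bb o)) := by
    obtain ⟨G, hG⟩ := LinearMap.exists_leftInverse_of_injective
      (Finsupp.linearCombination k v) (LinearMap.ker_eq_bot.2 hv)
    refine ⟨Finsupp.linearCombination k (fun o : Fin m => algebraMap ℚ k (φ (bb o))) ∘ₗ G,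
      fun o => ?_⟩
    have h1 := LinearMap.congr_fun hG (Finsupp.single o 1)
    rw [LinearMap.comp_apply, Finsupp.linearCombination_single, one_smul, LinearMap.id_apply] at h1
    rw [LinearMap.comp_apply, h1, Finsupp.linearCombination_single, one_smul]
  refine ⟨Φ, fun z => ?_⟩
  have h2 : (z : E) = ∑ i, (algebraMap ℚ k (bb.repr z i)) • (bb i : E) := by
    have := congrArg (fun w : Λ'' => (w : E)) (bb.sum_repr z)
    rw [← this]
    push_cast
    refine Finset.sum_congr rfl fun i _ => ?_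
    exact qsmul (k := k) _ _
  rw [h2, map_sum]
  have h3 : φ z = ∑ i, bb.repr z i * φ (bb i) := by
    conv_lhs => rw [← bb.sum_repr z]
    rw [map_sum]
    refine Finset.sum_congr rfl fun i _ => ?_
    rw [map_smul, smul_eq_mul]
  rw [h3, map_sum]
  refine Finset.sum_congr rfl fun i _ => ?_
  have h4 : Φ ((bb i : Λ'') : E) = algebraMap ℚ k (φ (bb i)) := hΦ i
  rw [map_smul, h4, map_mul, smul_eq_mul]

omit [CharZero k] in
/-- The rational envelope. -/
theorem envelope {Λ : Submodule ℚ E} {V' : Submodule k E} [FiniteDimensional k V']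
    (hV' : V' ≤ Submodule.span k (Λ : Set E)) :
    ∃ Λ₁ : Submodule ℚ E, Λ₁ ≤ Λ ∧ FiniteDimensional ℚ Λ₁ ∧
      V' ≤ Submodule.span k (Λ₁ : Set E) := by
  classical
  obtain ⟨G, hG⟩ := (Module.Finite.iff_fg.1 (inferInstance : Module.Finite k V'))
  have h1 : ∀ g ∈ G, ∃ T : Finset E, (T : Set E) ⊆ (Λ : Set E) ∧
      g ∈ Submodule.span k (T : Set E) := by
    intro g hg
    have h2 : g ∈ Submodule.span k (Λ : Set E) := by
      apply hV'
      rw [← hG]
      exact Submodule.subset_span hg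
    obtain ⟨T, hT, hgT⟩ := Submodule.mem_span_finite_of_mem_span h2
    exact ⟨T, hT, hgT⟩
  choose! T hT hgT using h1
  let T' : Finset E := G.biUnion T
  let T'' : Set E := {t | t ∈ T' ∧ t ∈ Λ}
  have hT''fin : T''.Finite := T'.finite_toSet.subset fun t ht => ht.1
  refine ⟨Submodule.span ℚ T'', Submodule.span_le.2 fun t ht => ht.2,
    FiniteDimensional.span_of_finite ℚ hT''fin, ?_⟩
  rw [← hG, Submodule.span_le]
  intro g hg
  refine Submodule.span_mono ?_ (hgT g hg)
  intro t ht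
  exact Submodule.subset_span ⟨Finset.mem_biUnion.2 ⟨g, hg, ht⟩, hT g hg ht⟩

/-- **All the logarithms in the relations with coefficients in `S` lie in a fixed rational space.** -/
theorem relations {Λ : Submodule ℚ E} (hyp : Hyp (Submodule.span k (Λ : Set E)))
    (hB : BakerH k Λ) (S : Submodule k E) [FiniteDimensional k S] :
    ∃ Λ' : Submodule ℚ E, Λ' ≤ Λ ∧ FiniteDimensional ℚ Λ' ∧
      ∀ (n : ℕ) (C z : Fin n → E), (∀ i, C i ∈ S) → (∀ i, z i ∈ Λ) → ∑ i, C i * z i = 0 →
        (∀ w : Fin n → ℚ, ∑ i, w i • C i = 0 → w = 0) → ∀ i, z i ∈ Λ' := by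
  classical
  obtain ⟨V', h1, h2, -, h4⟩ := lin_rel hyp S
  obtain ⟨Λ₁, h5, h6, h7⟩ := envelope (k := k) h1
  refine ⟨Λ₁, h5, h6, ?_⟩
  intro n C z hC hz h0 hw i₀
  by_contra hcon
  set Λ'' : Submodule ℚ E := Λ₁ ⊔ Submodule.span ℚ (Set.range z) with hΛ''
  have hle : Λ'' ≤ Λ := by
    refine sup_le h5 ?_
    rw [Submodule.span_le]
    rintro _ ⟨i, rfl⟩
    exact hz i
  have hfin : FiniteDimensional ℚ (Submodule.span ℚ (Set.range z)) :=
    FiniteDimensional.span_of_finite ℚ (Set.finite_range z)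
  have hfin2 : FiniteDimensional ℚ Λ'' := by
    rw [hΛ'']
    infer_instance
  have hzm : ∀ i, z i ∈ Λ'' := fun i => Submodule.mem_sup_right (Submodule.subset_span ⟨i, rfl⟩)
  let U : Submodule ℚ Λ'' := Λ₁.comap Λ''.subtype
  have hzU : (⟨z i₀, hzm i₀⟩ : Λ'') ∉ U := fun h => hcon h
  obtain ⟨φ, hφ, hφU⟩ := Submodule.exists_dual_map_eq_bot_of_notMem hzU inferInstance
  obtain ⟨Φ, hΦ⟩ := functional hB Λ'' hle φ
  have hφ0 : ∀ x : Λ'', x ∈ U → φ x = 0 := by
    intro x hx
    have : φ x ∈ U.map φ := ⟨x, hx, rfl⟩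
    rw [hφU, Submodule.mem_bot] at this
    exact this
  have hΦV : ∀ x ∈ V', Φ x = 0 := by
    intro x hx
    have h8 : Submodule.span k (Λ₁ : Set E) ≤ LinearMap.ker Φ := by
      rw [Submodule.span_le]
      intro y hy
      have hy' : y ∈ Λ'' := Submodule.mem_sup_left hy
      show Φ y = 0
      rw [hΦ ⟨y, hy'⟩, hφ0 ⟨y, hy'⟩ hy, map_zero]
    exact h8 (h7 hx)
  let w : Fin n → ℚ := fun i => φ ⟨z i, hzm i⟩
  have hw0 : w = 0 := by
    apply hw
    have h9 : ∀ j, ∑ i, (Module.finBasis k S).repr ⟨C i, hC i⟩ j * algebraMap ℚ k (w i) = 0 := by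
      intro j
      have h10 := hΦV _ (h4 n C z hC (fun i => Submodule.subset_span (hz i)) h0 j)
      rw [map_sum] at h10
      rw [← h10]
      refine Finset.sum_congr rfl fun i _ => ?_
      rw [map_smul, hΦ ⟨z i, hzm i⟩, smul_eq_mul]
    have h11 : ∀ i, C i = ∑ j, (Module.finBasis k S).repr ⟨C i, hC i⟩ j •
        (Module.finBasis k S j : E) := by
      intro i
      have := congrArg (fun w : S => (w : E)) ((Module.finBasis k S).sum_repr ⟨C i, hC i⟩)
      simp only at this
      conv_lhs => rw [← this]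
      push_cast
      rfl
    have h12 : ∀ i, w i • C i = ∑ j, ((Module.finBasis k S).repr ⟨C i, hC i⟩ j *
        algebraMap ℚ k (w i)) • (Module.finBasis k S j : E) := by
      intro i
      rw [qsmul (k := k)]
      conv_lhs => rw [h11 i, Finset.smul_sum]
      refine Finset.sum_congr rfl fun j _ => ?_
      rw [smul_smul, mul_comm]
    rw [Finset.sum_congr rfl (fun i _ => h12 i), Finset.sum_comm]
    refine Finset.sum_eq_zero fun j _ => ?_
    rw [← Finset.sum_smul, h9 j, zero_smul]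
  exact hφ (congrFun hw0 i₀)

end Pool.Agent.Q244.LK
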