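import Pool.Agent.Q244.LK.Desc

/-!
# Elements of a `χ`-part with vanishing logarithm and coordinates in a given space
-/

set_option autoImplicit false

namespace Pool.Agent.Q244.LK

open NumberField TensorProduct Module
open Pool.Agent.W289.SL Pool.Agent.W332.SL6
open Pool.Agent.W332.SL7 (Coords QSub FinQ push_injective)

variable {p : ℕ} [hp : Fact p.Prime] {L : ℂ_[p] → ℂ_[p]}

section one

variable {K H : Type} [Field K] [NumberField K] [Field H] [NumberField H] [Algebra K H]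
  [FiniteDimensional K H] {χ : (H ≃ₐ[K] H) →* ℂ_[p]ˣ}

/-- An automorphism which fixes the field of definition is trivial. -/
theorem fix_one (hχ : Function.Injective χ) {x : UM p H} (hx0 : x ≠ 0) (hx : InChi χ x)
    (H₀ : IntermediateField ℚ H) {x₀ : UM p H₀} (h : push (algebraMap H₀ H) x₀ = x)
    (τ : H ≃ₐ[K] H) (hτ : ∀ z ∈ H₀, τ z = z) : τ = 1 := by
  have e : (τ : H →+* H).comp (algebraMap H₀ H) = algebraMap H₀ H := by
    ext z
    exact hτ z z.2
  have h1 : push (τ : H →+* H) x = x := by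
    rw [← h, push_push, e]
  have h2 := hx τ
  rw [actLin_eq, h1] at h2
  have h3 : (((χ τ : ℂ_[p]ˣ) : ℂ_[p]) - 1) • x = 0 := by
    rw [sub_smul, ← h2, one_smul, sub_self]
  have h4 := (smul_eq_zero.1 h3).resolve_right hx0
  apply hχ
  rw [map_one]
  apply Units.ext
  exact sub_eq_zero.1 h4

/-- The degree of `H / K`. -/
theorem deg_le [IsGalois K H] (σ : H →+* ℂ_[p]) (F : IntermediateField ℚ ℂ_[p])
    [FiniteDimensional ℚ F]
    (h : ∀ τ : H ≃ₐ[K] H, (∀ z ∈ sub σ F, τ z = z) → τ = 1) : finrank K H ≤ finrank ℚ F := by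
  classical
  have h1 : finrank K H ≤ finrank ℚ (sub σ F) := by
    rw [← IsGalois.card_aut_eq_finrank, ← NumberField.Embeddings.card (sub σ F) ℂ_[p],
      Nat.card_eq_fintype_card]
    refine Fintype.card_le_of_injective
      (fun τ : H ≃ₐ[K] H => (σ.comp (τ : H →+* H)).comp (algebraMap (sub σ F) H)) ?_
    intro τ τ' hττ
    have h2 : τ'⁻¹ * τ = 1 := by
      apply h
      intro z hz
      have h3 := RingHom.congr_fun hττ ⟨z, hz⟩
      have h4 : τ z = τ' z := σ.injective h3
      show τ'⁻¹ (τ z) = z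
      rw [h4]
      exact τ'.symm_apply_apply z
    exact (inv_mul_eq_one.1 h2).symm
  refine h1.trans ?_
  let f : sub σ F →ₗ[ℚ] F :=
    { toFun := fun z => ⟨σ z, z.2⟩
      map_add' := fun x y => Subtype.ext (map_add σ _ _)
      map_smul' := fun q x => Subtype.ext (by
        have h5 : ((q • x : sub σ F) : H) = (q : H) * (x : H) := by
          rw [← Rat.smul_def]
          rfl
        show σ ((q • x : sub σ F) : H) = _
        rw [h5, map_mul, map_ratCast]
        show _ = ((q • (⟨σ x, x.2⟩ : F) : F) : ℂ_[p])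
        rw [Algebra.smul_def]
        rfl) }
  refine LinearMap.finrank_le_finrank_of_injective (f := f) ?_
  intro x y hxy
  have h6 : σ (x : H) = σ (y : H) := congrArg Subtype.val hxy
  exact Subtype.ext (σ.injective h6)

/-- The generation statement. -/
theorem adjoin_top [IsGalois K H] (S : Set H)
    (h : ∀ τ : H ≃ₐ[K] H, (∀ z ∈ S, τ z = z) → τ = 1) : IntermediateField.adjoin K S = ⊤ := by
  have h1 : (IntermediateField.adjoin K S).fixingSubgroup = ⊥ := by
    rw [eq_bot_iff]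
    intro τ hτ
    rw [Subgroup.mem_bot]
    apply h
    intro z hz
    exact (IntermediateField.mem_fixingSubgroup_iff _ _).1 hτ z (IntermediateField.subset_adjoin K S hz)
  rw [← IsGalois.fixedField_fixingSubgroup (IntermediateField.adjoin K S), h1,
    IntermediateField.fixedField_bot]

end one

section two

variable {K H : Type} [Field K] [NumberField K] [Field H] [NumberField H] [Algebra K H]
  [FiniteDimensional K H]

/-- The preimage of a normal extension is stable. -/
theorem stable_sub (σ : H →+* ℂ_[p]) (F : IntermediateField ℚ ℂ_[p]) [FiniteDimensional ℚ F]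
    [Normal ℚ F] (τ : H ≃ₐ[K] H) {z : H} (hz : z ∈ sub σ F) : τ z ∈ sub σ F := by
  rw [mem_sub] at hz ⊢
  -- `σ (τ z)` is a root of the minimal polynomial of `σ z`
  let w : F := ⟨σ z, hz⟩
  have hsp : ((minpoly ℚ w).map (algebraMap ℚ F)).Splits := Normal.splits inferInstance w
  have h0 : minpoly ℚ w ≠ 0 := minpoly.ne_zero (Algebra.IsIntegral.isIntegral w)
  have hzroot : Polynomial.aeval z (minpoly ℚ w) = 0 := by
    apply σ.injective
    rw [map_zero]
    have h1 : σ (Polynomial.aeval z (minpoly ℚ w)) =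
        Polynomial.aeval (RingHom.toRatAlgHom σ z) (minpoly ℚ w) :=
      (Polynomial.aeval_algHom_apply (RingHom.toRatAlgHom σ) z (minpoly ℚ w)).symm
    rw [h1]
    have h2 : RingHom.toRatAlgHom σ z = (w : ℂ_[p]) := rfl
    rw [h2]
    have h3 := Polynomial.aeval_algHom_apply F.val w (minpoly ℚ w)
    rw [minpoly.aeval, map_zero] at h3
    exact h3
  have hroot : Polynomial.aeval (σ (τ z)) (minpoly ℚ w) = 0 := by
    have h1 : (RingHom.toRatAlgHom (σ.comp (τ : H →+* H))) (Polynomial.aeval z (minpoly ℚ w)) =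
        Polynomial.aeval (RingHom.toRatAlgHom (σ.comp (τ : H →+* H)) z) (minpoly ℚ w) :=
      (Polynomial.aeval_algHom_apply (RingHom.toRatAlgHom (σ.comp (τ : H →+* H))) z
        (minpoly ℚ w)).symm
    rw [hzroot, map_zero] at h1
    exact h1.symm
  have h3 : (((minpoly ℚ w).map (algebraMap ℚ F)).map (algebraMap F ℂ_[p])).IsRoot (σ (τ z)) := by
    rw [Polynomial.IsRoot.def, Polynomial.map_map, Polynomial.eval_map]
    have h5 : (algebraMap F ℂ_[p]).comp (algebraMap ℚ F) = algebraMap ℚ ℂ_[p] := RingHom.ext_rat _ _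
    rw [h5]
    exact hroot
  obtain ⟨c, hc⟩ := hsp.mem_range_of_isRoot
    ((Polynomial.map_ne_zero_iff (algebraMap ℚ F).injective).2 h0) h3
  rw [← hc]
  exact c.2

/-- If no element of `K` outside `ℚ` is mapped to `F`, the complex embeddings are conjugate. -/
theorem conj_emb [IsGalois K H] (H₀ : IntermediateField ℚ H)
    (hst : ∀ (τ : H ≃ₐ[K] H), ∀ z ∈ H₀, τ z ∈ H₀)
    (hK : ∀ z : K, algebraMap K H z ∈ H₀ → ∃ q : ℚ, z = q) (s s₀ : H →+* ℂ) :
    ∃ g : H ≃ₐ[K] H, ∀ z ∈ H₀, s z = s₀ (g z) := by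
  classical
  obtain ⟨z₀, hz₀⟩ := Field.exists_primitive_element ℚ H₀
  -- the polynomial `∏ (X - g z₀)`
  let P : Polynomial H := ∏ g : H ≃ₐ[K] H, (Polynomial.X - Polynomial.C (g (z₀ : H)))
  have hPinv : ∀ h : H ≃ₐ[K] H, P.map (h : H →+* H) = P := by
    intro h
    simp only [P]
    rw [Polynomial.map_prod]
    simp only [Polynomial.map_sub, Polynomial.map_X, Polynomial.map_C]
    refine Fintype.prod_equiv (Equiv.mulLeft h) _ _ fun g => ?_
    rfl
  have hPmem : ∀ n, P.coeff n ∈ H₀ := by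
    have h1 : P ∈ Polynomial.lifts (algebraMap H₀ H) := by
      refine Subsemiring.prod_mem _ fun g _ => ?_
      refine ⟨Polynomial.X - Polynomial.C ⟨g (z₀ : H), hst g _ z₀.2⟩, ?_⟩
      simp
    obtain ⟨Q, hQ⟩ := h1
    intro n
    rw [← hQ]
    rw [Polynomial.coe_mapRingHom, Polynomial.coeff_map]
    exact (Q.coeff n).2
  have hPq : ∀ n, ∃ q : ℚ, P.coeff n = q := by
    intro n
    have h1 : P.coeff n ∈ (⊥ : IntermediateField K H) := by
      rw [IsGalois.mem_bot_iff_fixed]
      intro h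
      have h2 := congrArg (fun Q : Polynomial H => Q.coeff n) (hPinv h)
      simpa using h2
    obtain ⟨y, hy⟩ := IntermediateField.mem_bot.1 h1
    obtain ⟨q, hq⟩ := hK y (by rw [hy]; exact hPmem n)
    exact ⟨q, by rw [← hy, hq, map_ratCast]⟩
  choose q hq using hPq
  have hsame : P.map s = P.map s₀ := by
    ext n
    rw [Polynomial.coeff_map, Polynomial.coeff_map, hq, map_ratCast, map_ratCast]
  have h1 : (P.map s).IsRoot (s z₀) := by
    rw [Polynomial.IsRoot.def, Polynomial.eval_map, Polynomial.eval₂_hom]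
    have h2 : P.eval (z₀ : H) = 0 := by
      simp only [P]
      rw [Polynomial.eval_prod]
      refine Finset.prod_eq_zero (Finset.mem_univ 1) ?_
      simp
    rw [h2, map_zero]
  rw [hsame] at h1
  simp only [P] at h1
  rw [Polynomial.map_prod, Polynomial.IsRoot.def, Polynomial.eval_prod, Finset.prod_eq_zero_iff] at h1
  obtain ⟨g, -, hg⟩ := h1
  rw [Polynomial.map_sub, Polynomial.map_X, Polynomial.map_C, Polynomial.eval_sub,
    Polynomial.eval_X, Polynomial.eval_C, sub_eq_zero] at hg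
  refine ⟨g, ?_⟩
  -- two embeddings of `H₀` which agree at a primitive element
  let f₁ : H₀ →ₐ[ℚ] ℂ := RingHom.toRatAlgHom (s.comp (algebraMap H₀ H))
  let f₂ : H₀ →ₐ[ℚ] ℂ := RingHom.toRatAlgHom ((s₀.comp (g : H →+* H)).comp (algebraMap H₀ H))
  have h2 : f₁ = f₂ := by
    have h3 : ∀ y : H₀, f₁ y = f₂ y := by
      intro y
      have hy : y ∈ IntermediateField.adjoin ℚ {z₀} := by rw [hz₀]; exact IntermediateField.mem_top
      refine IntermediateField.adjoin_induction ℚ (p := fun y _ => f₁ y = f₂ y) ?_ ?_ ?_ ?_ ?_ hy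
      · intro y hy
        rw [Set.mem_singleton_iff] at hy
        rw [hy]
        exact hg
      · intro y
        rw [AlgHom.commutes, AlgHom.commutes]
      · intro a b _ _ ha hb
        rw [map_add, map_add, ha, hb]
      · intro a _ ha
        rw [map_inv₀, map_inv₀, ha]
      · intro a b _ _ ha hb
        rw [map_mul, map_mul, ha, hb]
    exact AlgHom.ext h3
  intro z hz
  exact congrArg (fun f : H₀ →ₐ[ℚ] ℂ => f ⟨z, hz⟩) h2

variable {χ : (H ≃ₐ[K] H) →* ℂ_[p]ˣ}

theorem xu_lin (b : ℂ_[p]) (u : Additive (𝓞 H)ˣ) :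
    ∑ g : H ≃ₐ[K] H, ((χ g⁻¹ : ℂ_[p]ˣ) : ℂ_[p]) • push (g : H →+* H) (b ⊗ₜ[ℤ] u) = b • xu χ u := by
  unfold xu
  rw [Finset.smul_sum]
  refine Finset.sum_congr rfl fun g _ => ?_
  simp only [push_tmul, TensorProduct.smul_tmul', smul_eq_mul, mul_one]
  rw [mul_comm]

/-- **The field `K` has an element outside `ℚ` in `F`.** -/
theorem base_ne [IsGalois K H] (hL : IsIwasawaLog p L) {x : UM p H} (hx0 : x ≠ 0)
    (hx : InChi χ x) (σ : H →+* ℂ_[p]) (h0 : logLin hL σ x = 0) (H₀ : IntermediateField ℚ H)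
    (hst : ∀ (τ : H ≃ₐ[K] H), ∀ z ∈ H₀, τ z ∈ H₀) {x₀ : UM p H₀}
    (h : push (algebraMap H₀ H) x₀ = x) :
    ∃ z : K, (∀ q : ℚ, z ≠ q) ∧ algebraMap K H z ∈ H₀ := by
  classical
  by_contra hcon
  push Not at hcon
  have hK : ∀ z : K, algebraMap K H z ∈ H₀ → ∃ q : ℚ, z = q := by
    intro z hz
    by_contra hne
    push Not at hne
    exact hcon z hne hz
  obtain ⟨θ⟩ := Pool.Agent.W254.PA.exists_theta p
  obtain ⟨s₀, hs₀⟩ : ∃ s₀ : H →+* ℂ, lam θ s₀ x ≠ 0 := by
    by_contra hall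
    push Not at hall
    exact hx0 (eq_zero_of_lam θ x hall)
  -- elements defined over `H₀`
  have key : ∀ y₀ : UM p H₀, ∀ s : H →+* ℂ, ∀ g : H ≃ₐ[K] H, (∀ z ∈ H₀, s z = s₀ (g z)) →
      ∀ k : H ≃ₐ[K] H, lam θ s (push (k : H →+* H) (push (algebraMap H₀ H) y₀)) =
        lam θ (s₀.comp (g : H →+* H)) (push (k : H →+* H) (push (algebraMap H₀ H) y₀)) := by
    intro y₀ s g hg k
    rw [lam_push, lam_push, lam_push, lam_push]
    refine lam_congr θ _ _ (fun z => ?_) y₀
    show ‖s (k (z : H))‖ = ‖s₀ (g (k (z : H)))‖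
    rw [hg _ (hst k _ z.2)]
  obtain ⟨b, hb⟩ := decomp x₀
  -- the projections of the fundamental units of `H₀`
  let y : Fin (Units.rank H₀) → UM p H := fun j => xu χ (uMap (algebraMap H₀ H) (fu H₀ j))
  have hysum : ∑ j, b j • y j = (Fintype.card (H ≃ₐ[K] H) : ℂ_[p]) • x := by
    have h1 : ∑ g : H ≃ₐ[K] H, ((χ g⁻¹ : ℂ_[p]ˣ) : ℂ_[p]) • push (g : H →+* H) x =
        (Fintype.card (H ≃ₐ[K] H) : ℂ_[p]) • x := by
      have h2 : ∀ g : H ≃ₐ[K] H, ((χ g⁻¹ : ℂ_[p]ˣ) : ℂ_[p]) • push (g : H →+* H) x = x := by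
        intro g
        rw [← actLin_eq, hx g, smul_smul, ← Units.val_mul, ← map_mul, inv_mul_cancel, map_one,
          Units.val_one, one_smul]
      rw [Finset.sum_congr rfl (fun g _ => h2 g), Finset.sum_const, Finset.card_univ,
        ← Nat.cast_smul_eq_nsmul ℂ_[p]]
    rw [← h1, ← h, hb]
    simp only [map_sum, map_smul, push_tmul, Finset.smul_sum]
    rw [Finset.sum_comm]
    refine Finset.sum_congr rfl fun j _ => ?_
    simp only [y]
    rw [← xu_lin]
    refine Finset.sum_congr rfl fun g _ => ?_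
    simp only [push_tmul, TensorProduct.smul_tmul', smul_eq_mul, mul_one]
  obtain ⟨j, hj⟩ : ∃ j, lam θ s₀ (y j) ≠ 0 := by
    by_contra hall
    push Not at hall
    have h1 := congrArg (lam θ s₀) hysum
    rw [map_sum, map_smul] at h1
    rw [Finset.sum_eq_zero (fun j _ => by rw [map_smul, hall j, smul_zero])] at h1
    rcases smul_eq_zero.1 h1.symm with h2 | h2
    · have : Fintype.card (H ≃ₐ[K] H) ≠ 0 := Fintype.card_ne_zero
      exact this (by exact_mod_cast h2)
    · exact hs₀ h2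
  -- `x` is a multiple of `y j`
  have hyconj : ∀ s : H →+* ℂ, ∀ g : H ≃ₐ[K] H, (∀ z ∈ H₀, s z = s₀ (g z)) →
      lam θ s (y j) = lam θ (s₀.comp (g : H →+* H)) (y j) := by
    intro s g hg
    simp only [y]
    unfold xu
    rw [map_sum, map_sum]
    refine Finset.sum_congr rfl fun k _ => ?_
    rw [map_smul, map_smul]
    congr 1
    have h1 : (1 : ℂ_[p]) ⊗ₜ[ℤ] uMap (k : H →+* H) (uMap (algebraMap H₀ H) (fu H₀ j)) =
        push (k : H →+* H) (push (algebraMap H₀ H) ((1 : ℂ_[p]) ⊗ₜ[ℤ] fu H₀ j)) := rfl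
    rw [h1]
    exact key _ s g hg k
  have hxconj : ∀ s : H →+* ℂ, ∀ g : H ≃ₐ[K] H, (∀ z ∈ H₀, s z = s₀ (g z)) →
      lam θ s x = lam θ (s₀.comp (g : H →+* H)) x := by
    intro s g hg
    have h1 := key x₀ s g hg 1
    rw [h] at h1
    have h2 : push ((1 : H ≃ₐ[K] H) : H →+* H) x = x := by
      have := hx 1
      rw [actLin_eq, map_one, Units.val_one, one_smul] at this
      exact this
    rwa [h2] at h1
  have hz : lam θ s₀ (y j) • x - lam θ s₀ x • y j = 0 := by
    refine eq_zero_of_lam θ _ fun s => ?_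
    obtain ⟨g, hg⟩ := conj_emb H₀ hst hK s s₀
    rw [map_sub, map_smul, map_smul, hxconj s g hg, hyconj s g hg, lam_inChi θ hx,
      lam_inChi θ (xu_inChi χ _), smul_eq_mul, smul_eq_mul]
    simp only [y]
    ring
  have hlog : lam θ s₀ x * logLin hL σ (y j) = 0 := by
    have h1 := congrArg (logLin hL σ) hz
    rw [map_sub, map_smul, map_smul, h0, smul_zero, zero_sub, map_zero, neg_eq_zero,
      smul_eq_mul] at h1
    exact h1
  have hly : logLin hL σ (y j) = 0 := (mul_eq_zero.1 hlog).resolve_left hs₀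
  have hy0 : y j = 0 := eq_zero_of_log hL σ (xu_mem_AU χ _) hly
  rw [hy0, map_zero] at hj
  exact hj rfl

end two

end Pool.Agent.Q244.LK
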