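import Pool.Agent.Q244.LK.Desc

/-!
# Leopoldt relations in terms of independent units
-/

set_option autoImplicit false

namespace Pool.Agent.Q244.LK

open NumberField Module
open Pool.Agent.W289.SL Pool.Agent.W332.SL6
open Pool.Agent.W332.SL7 (QSub FinQ)

variable {p : ℕ} [hp : Fact p.Prime] (L : ℂ_[p] → ℂ_[p])

/-- Rational independence. -/
def RInd {n : ℕ} (a : Fin n → ℂ_[p]) : Prop :=
  ∀ w : Fin n → ℚ, ∑ i, (w i : ℂ_[p]) * a i = 0 → w = 0

/-- Standard form. -/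
def HasStd (A : QSub ℂ_[p]) (K : Type) [Field K] [NumberField K] : Prop :=
  ∃ (n : ℕ) (ε : Fin n → (𝓞 K)ˣ) (a : Fin n → ℂ_[p]),
    (∀ m : Fin n → ℤ, ∏ i, ε i ^ m i = 1 → m = 0) ∧ (∀ i, a i ∈ A) ∧ a ≠ 0 ∧
    ∀ σ : K →+* ℂ_[p], ∑ i, a i * L (σ ((ε i : 𝓞 K) : K)) = 0

/-- Dual form. -/
def HasDual (A : QSub ℂ_[p]) (K : Type) [Field K] [NumberField K] : Prop :=
  ∃ (n : ℕ) (ε : Fin n → (𝓞 K)ˣ) (a : Fin n → ℂ_[p]),
    (∃ i, ∀ m : ℕ, 1 ≤ m → ε i ^ m ≠ 1) ∧ (∀ i, a i ∈ A) ∧ RInd a ∧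
    ∀ σ : K →+* ℂ_[p], ∑ i, a i * L (σ ((ε i : 𝓞 K) : K)) = 0

variable {L} (hL : IsIwasawaLog p L)

include hL

theorem log_unit_zpow {K : Type} [Field K] [NumberField K] (σ : K →+* ℂ_[p]) (u : (𝓞 K)ˣ) (n : ℤ) :
    L (σ (((u ^ n : (𝓞 K)ˣ) : 𝓞 K) : K)) = n * L (σ ((u : 𝓞 K) : K)) := by
  have h1 := (logHom hL σ).map_zsmul n (Additive.ofMul u)
  rw [zsmul_eq_mul] at h1
  exact h1

theorem log_unit_prod {K : Type} [Field K] [NumberField K] (σ : K →+* ℂ_[p]) {n : ℕ}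
    (u : Fin n → (𝓞 K)ˣ) :
    L (σ (((∏ i, u i : (𝓞 K)ˣ) : 𝓞 K) : K)) = ∑ i, L (σ ((u i : 𝓞 K) : K)) := by
  have h1 := map_sum (logHom hL σ) (fun i => Additive.ofMul (u i)) Finset.univ
  rw [← ofMul_prod] at h1
  exact h1

theorem log_unit_mul {K : Type} [Field K] [NumberField K] (σ : K →+* ℂ_[p]) (u v : (𝓞 K)ˣ) :
    L (σ (((u * v : (𝓞 K)ˣ) : 𝓞 K) : K)) =
      L (σ ((u : 𝓞 K) : K)) + L (σ ((v : 𝓞 K) : K)) :=
  (logHom hL σ).map_add (Additive.ofMul u) (Additive.ofMul v)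

theorem log_torsion {K : Type} [Field K] [NumberField K] (σ : K →+* ℂ_[p]) (u : (𝓞 K)ˣ) {m : ℕ}
    (hm : m ≠ 0) (h : u ^ m = 1) : L (σ ((u : 𝓞 K) : K)) = 0 := by
  have h1 := log_unit_zpow hL σ u m
  rw [zpow_natCast, h] at h1
  have h2 : L (σ (((1 : (𝓞 K)ˣ) : 𝓞 K) : K)) = 0 := (logHom hL σ).map_zero
  rw [h2] at h1
  have h3 : ((m : ℤ) : ℂ_[p]) ≠ 0 := by exact_mod_cast hm
  exact (mul_eq_zero.1 h1.symm).resolve_left h3

theorem dual_of_std {A : QSub ℂ_[p]} {K : Type} [Field K] [NumberField K] (h : HasStd L A K) :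
    HasDual L A K := by
  classical
  obtain ⟨n, ε, a, hε, ha, ha0, hrel⟩ := h
  let W : Submodule ℚ ℂ_[p] := Submodule.span ℚ (Set.range a)
  have hWfin : FiniteDimensional ℚ W := FiniteDimensional.span_of_finite ℚ (Set.finite_range a)
  have hWA : ∀ z ∈ W, z ∈ A := by
    intro z hz
    refine Submodule.span_induction (p := fun z _ => z ∈ A) ?_ (zero_mem _)
      (fun _ _ _ _ h1 h2 => add_mem h1 h2) ?_ hz
    · rintro _ ⟨i, rfl⟩
      exact ha i
    · intro q z _ hz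
      rw [Pool.Agent.Q244.OC.qsmul (k := algebraicClosure ℚ ℂ_[p])]
      exact A.smul_mem _ hz
  let b := Module.finBasis ℚ W
  let q : Fin n → Fin (finrank ℚ W) → ℚ := fun i j =>
    b.repr ⟨a i, Submodule.subset_span ⟨i, rfl⟩⟩ j
  have hsum : ∀ i, a i = ∑ j, (q i j : ℂ_[p]) * ((b j : W) : ℂ_[p]) := by
    intro i
    have := congrArg (fun z : W => (z : ℂ_[p])) (b.sum_repr ⟨a i, Submodule.subset_span ⟨i, rfl⟩⟩)
    simp only at this
    conv_lhs => rw [← this]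
    push_cast
    refine Finset.sum_congr rfl fun j _ => ?_
    rw [Rat.smul_def]
  let N : ℕ := ∏ i, ∏ j, (q i j).den
  have hN : N ≠ 0 := Finset.prod_ne_zero_iff.2 fun i _ =>
    Finset.prod_ne_zero_iff.2 fun j _ => (q i j).den_nz
  have hNq : (N : ℚ) ≠ 0 := by exact_mod_cast hN
  have hm : ∀ i j, ∃ m : ℤ, (m : ℚ) = N * q i j := by
    intro i j
    obtain ⟨t, ht⟩ : (q i j).den ∣ N :=
      (Finset.dvd_prod_of_mem (fun j => (q i j).den) (Finset.mem_univ j)).trans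
        (Finset.dvd_prod_of_mem (fun i => ∏ j, (q i j).den) (Finset.mem_univ i))
    refine ⟨t * (q i j).num, ?_⟩
    rw [ht]
    push_cast
    have h5 : q i j * (q i j).den = (q i j).num := Rat.mul_den_eq_num _
    linear_combination (-(t : ℚ)) * h5
  choose m hm using hm
  have hind : ∀ w : Fin (finrank ℚ W) → ℚ, ∑ j, (w j : ℂ_[p]) * ((b j : W) : ℂ_[p]) = 0 →
      w = 0 := by
    intro w hw
    have h3 := (Fintype.linearIndependent_iff.1
      (b.linearIndependent.map' W.subtype (Submodule.ker_subtype _))) w (by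
        rw [← hw]
        refine Finset.sum_congr rfl fun j _ => ?_
        rw [Rat.smul_def]
        rfl)
    funext j
    exact h3 j
  have hNa : ∀ i, (N : ℂ_[p]) * a i = ∑ j, (m i j : ℂ_[p]) * ((b j : W) : ℂ_[p]) := by
    intro i
    rw [hsum i, Finset.mul_sum]
    refine Finset.sum_congr rfl fun j _ => ?_
    have : ((m i j : ℤ) : ℂ_[p]) = N * (q i j : ℂ_[p]) := by
      exact_mod_cast congrArg (Rat.cast : ℚ → ℂ_[p]) (hm i j)
    rw [this, mul_assoc]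
  refine ⟨finrank ℚ W, fun j => ∏ i, ε i ^ m i j, fun j => ((b j : W) : ℂ_[p]), ?_, ?_, hind, ?_⟩
  · -- an exponent does not vanish
    obtain ⟨i₀, hi₀⟩ := Function.ne_iff.1 ha0
    obtain ⟨j₀, hj₀⟩ : ∃ j, m i₀ j ≠ 0 := by
      by_contra hcon
      push Not at hcon
      have h6 := hNa i₀
      rw [Finset.sum_eq_zero (fun j _ => by rw [hcon j]; simp)] at h6
      rcases mul_eq_zero.1 h6 with h7 | h7
      · exact hN (by exact_mod_cast h7)
      · exact hi₀ h7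
    refine ⟨j₀, fun M hM h1 => ?_⟩
    have h2 := hε (fun i => m i j₀ * M) (by
      rw [← h1, ← Finset.prod_pow]
      refine Finset.prod_congr rfl fun i _ => ?_
      rw [zpow_mul, zpow_natCast])
    have h3 := congrFun h2 i₀
    rcases mul_eq_zero.1 h3 with h4 | h4
    · exact hj₀ h4
    · have : M = 0 := by exact_mod_cast h4
      omega
  · intro j
    exact hWA _ (b j).2
  · intro σ
    have h1 : ∀ j, L (σ (((∏ i, ε i ^ m i j : (𝓞 K)ˣ) : 𝓞 K) : K)) =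
        ∑ i, (m i j : ℂ_[p]) * L (σ ((ε i : 𝓞 K) : K)) := by
      intro j
      rw [log_unit_prod hL]
      exact Finset.sum_congr rfl fun i _ => log_unit_zpow hL σ _ _
    simp only [h1, Finset.mul_sum]
    rw [Finset.sum_comm]
    have h2 : ∀ i, ∑ j, ((b j : W) : ℂ_[p]) * ((m i j : ℂ_[p]) * L (σ ((ε i : 𝓞 K) : K))) =
        N * (a i * L (σ ((ε i : 𝓞 K) : K))) := by
      intro i
      rw [← mul_assoc, hNa, Finset.sum_mul]
      exact Finset.sum_congr rfl fun j _ => by ring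
    simp only [h2]
    rw [← Finset.mul_sum, hrel σ, mul_zero]

open NumberField.Units in
theorem std_of_dual {A : QSub ℂ_[p]} {K : Type} [Field K] [NumberField K] (h : HasDual L A K) :
    HasStd L A K := by
  classical
  obtain ⟨n, ε, a, ⟨i₀, hi₀⟩, ha, hind, hrel⟩ := h
  have h1 : ∀ i, ∃ (ζ : (𝓞 K)ˣ) (e : Fin (rank K) → ℤ), ζ ∈ torsion K ∧
      ε i = ζ * ∏ k, fundSystem K k ^ e k := by
    intro i
    obtain ⟨⟨ζ, e⟩, h, -⟩ := exist_unique_eq_mul_prod K (ε i)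
    exact ⟨ζ, e, ζ.2, h⟩
  choose ζ e hζ hεe using h1
  have hζ' : ∀ i, ∃ m : ℕ, m ≠ 0 ∧ ζ i ^ m = 1 := by
    intro i
    have h3 : IsOfFinOrder (ζ i) := (CommGroup.mem_torsion _).1 (hζ i)
    obtain ⟨m, hm, hm1⟩ := isOfFinOrder_iff_pow_eq_one.1 h3
    exact ⟨m, by omega, hm1⟩
  refine ⟨rank K, fundSystem K, fun k => ∑ i, (e i k : ℂ_[p]) * a i, ?_, ?_, ?_, ?_⟩
  · intro m hm
    obtain ⟨σ⟩ : Nonempty (K →+* ℂ_[p]) := inferInstance
    have h2 := indep_log hL σ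
    rw [Fintype.linearIndependent_iff] at h2
    have h3 := h2 (fun k => (m k : ℚ)) (by
      have h4 : L (σ (((∏ k, fundSystem K k ^ m k : (𝓞 K)ˣ) : 𝓞 K) : K)) = 0 := by
        rw [hm]
        exact (logHom hL σ).map_zero
      rw [log_unit_prod hL] at h4
      rw [← h4]
      refine Finset.sum_congr rfl fun k _ => ?_
      rw [log_unit_zpow hL, Algebra.smul_def, map_intCast])
    funext k
    exact_mod_cast h3 k
  · intro k
    refine Submodule.sum_mem _ fun i _ => ?_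
    have h2 : (e i k : ℂ_[p]) * a i = ((e i k : ℤ) : algebraicClosure ℚ ℂ_[p]) • a i := by
      rw [Algebra.smul_def, map_intCast]
    rw [h2]
    exact A.smul_mem _ (ha i)
  · intro h0
    obtain ⟨m, hm, hm1⟩ := hζ' i₀
    have h3 : ∀ k, e i₀ k = 0 := by
      intro k
      have h4 := hind (fun i => (e i k : ℚ)) (by
        have h5 := congrFun h0 k
        simp only [Pi.zero_apply] at h5
        rw [← h5]
        refine Finset.sum_congr rfl fun i _ => ?_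
        push_cast
        rfl)
      have h6 : ((e i₀ k : ℤ) : ℚ) = 0 := congrFun h4 i₀
      exact_mod_cast h6
    apply hi₀ m (by omega)
    rw [hεe i₀, mul_pow, hm1, one_mul, Finset.prod_eq_one fun k _ => by rw [h3 k, zpow_zero],
      one_pow]
  · intro σ
    have h2 : ∀ i, L (σ ((ε i : 𝓞 K) : K)) =
        ∑ k, (e i k : ℂ_[p]) * L (σ ((fundSystem K k : 𝓞 K) : K)) := by
      intro i
      obtain ⟨m, hm, hm1⟩ := hζ' i
      rw [hεe i, log_unit_mul hL, log_torsion hL σ _ hm hm1, zero_add, log_unit_prod hL]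
      exact Finset.sum_congr rfl fun k _ => log_unit_zpow hL σ _ _
    rw [← hrel σ]
    simp only [h2, Finset.mul_sum, Finset.sum_mul]
    rw [Finset.sum_comm]
    refine Finset.sum_congr rfl fun i _ => Finset.sum_congr rfl fun k _ => ?_
    ring

theorem std_push {A : QSub ℂ_[p]} {K H : Type} [Field K] [NumberField K] [Field H] [NumberField H]
    (f : K →+* H) (h : HasStd L A K) : HasStd L A H := by
  refine std_of_dual hL ?_
  obtain ⟨n, ε, a, ⟨i₀, hi₀⟩, ha, hind, hrel⟩ := dual_of_std hL h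
  have hf : ∀ i, ((((Units.map (RingOfIntegers.mapRingHom f).toMonoidHom (ε i) : (𝓞 H)ˣ) : 𝓞 H)) : H)
      = f ((ε i : 𝓞 K) : K) := fun i => rfl
  refine ⟨n, fun i => Units.map (RingOfIntegers.mapRingHom f).toMonoidHom (ε i), a, ⟨i₀, ?_⟩, ha,
    hind, fun σ => ?_⟩
  · intro m hm h1
    apply hi₀ m hm
    rw [← map_pow] at h1
    apply Units.ext
    apply RingOfIntegers.ext
    apply f.injective
    have h2 := congrArg (fun u : (𝓞 H)ˣ => (((u : (𝓞 H)ˣ) : 𝓞 H) : H)) h1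
    simpa using h2
  · exact hrel (σ.comp f)

theorem dual_descend {A : QSub ℂ_[p]} {K : Type} [Field K] [NumberField K]
    (K₀ : IntermediateField ℚ K) {n : ℕ} (ε : Fin n → (𝓞 K)ˣ) (a : Fin n → ℂ_[p])
    (hε : ∃ i, ∀ m : ℕ, 1 ≤ m → ε i ^ m ≠ 1) (ha : ∀ i, a i ∈ A) (hind : RInd a)
    (hrel : ∀ σ : K →+* ℂ_[p], ∑ i, a i * L (σ ((ε i : 𝓞 K) : K)) = 0)
    (hK₀ : ∀ i, ∃ m : ℕ, 1 ≤ m ∧ ((ε i : 𝓞 K) : K) ^ m ∈ K₀) : HasDual L A K₀ := by
  classical
  choose m hm hmK using hK₀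
  let N : ℕ := ∏ i, m i
  have hN : 1 ≤ N := Nat.one_le_iff_ne_zero.2 (Finset.prod_ne_zero_iff.2 fun i _ => by
    have := hm i
    omega)
  have h1 : ∀ i, ∃ v : (𝓞 K₀)ˣ, (((v : 𝓞 K₀) : K₀) : K) = (((ε i ^ N : (𝓞 K)ˣ) : 𝓞 K) : K) := by
    intro i
    apply unit_sub
    obtain ⟨t, ht⟩ : m i ∣ N := Finset.dvd_prod_of_mem _ (Finset.mem_univ i)
    have h2 : (((ε i ^ N : (𝓞 K)ˣ) : 𝓞 K) : K) = (((ε i : 𝓞 K) : K) ^ m i) ^ t := by
      rw [Units.val_pow_eq_pow_val, ← pow_mul, ← ht]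
      exact map_pow (algebraMap (𝓞 K) K) _ _
    rw [h2]
    exact pow_mem (hmK i) t
  choose v hv using h1
  obtain ⟨i₀, hi₀⟩ := hε
  refine ⟨n, v, a, ⟨i₀, fun M hM h2 => ?_⟩, ha, hind, fun τ => ?_⟩
  · apply hi₀ (N * M) (Nat.mul_pos (by omega) (by omega))
    apply Units.ext
    apply RingOfIntegers.ext
    have h3 : (((ε i₀ ^ (N * M) : (𝓞 K)ˣ) : 𝓞 K) : K) =
        ((((ε i₀ ^ N : (𝓞 K)ˣ) : 𝓞 K) : K)) ^ M := by
      rw [pow_mul, Units.val_pow_eq_pow_val (ε i₀ ^ N)]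
      exact map_pow (algebraMap (𝓞 K) K) _ _
    rw [h3, ← hv i₀]
    have h4 := congrArg (fun u : (𝓞 K₀)ˣ => ((((u : (𝓞 K₀)ˣ) : 𝓞 K₀) : K₀) : K)) h2
    simpa using h4
  · obtain ⟨t, ht⟩ := exists_ext' (algebraMap K₀ K) τ
    have h5 : ∀ i, L (τ ((v i : 𝓞 K₀) : K₀)) = N * L (t ((ε i : 𝓞 K) : K)) := by
      intro i
      have h6 : τ ((v i : 𝓞 K₀) : K₀) = t (((ε i ^ N : (𝓞 K)ˣ) : 𝓞 K) : K) := by
        rw [← hv i, ← ht]
        rfl
      rw [h6]
      have := log_unit_zpow hL t (ε i) N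
      rw [zpow_natCast] at this
      rw [this]
      push_cast
      rfl
    simp only [h5]
    rw [← mul_zero (N : ℂ_[p]), ← hrel t, Finset.mul_sum]
    exact Finset.sum_congr rfl fun i _ => by ring

omit hL in
theorem not_std_bot {A : QSub ℂ_[p]} {M : Type} [Field M] [NumberField M] (h : finrank ℚ M = 1) :
    ¬ HasStd L A M := by
  have hr : Units.rank M = 0 := by
    have h1 := Fintype.card_pos_iff.2 (inferInstance : Nonempty (InfinitePlace M))
    have h2 := InfinitePlace.card_add_two_mul_card_eq_rank M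
    have h3 : Fintype.card (InfinitePlace M) = InfinitePlace.nrRealPlaces M +
        InfinitePlace.nrComplexPlaces M := InfinitePlace.card_eq_nrRealPlaces_add_nrComplexPlaces M
    unfold Units.rank
    omega
  rintro ⟨n, ε, a, hε, -, ha, -⟩
  obtain ⟨i₀, -⟩ := Function.ne_iff.1 ha
  obtain ⟨⟨ζ, e⟩, h1, -⟩ := Units.exist_unique_eq_mul_prod M (ε i₀)
  have h3 : IsOfFinOrder (ζ : (𝓞 M)ˣ) := (CommGroup.mem_torsion _).1 ζ.2
  obtain ⟨m, hm, hm1⟩ := isOfFinOrder_iff_pow_eq_one.1 h3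
  have h4 : ε i₀ ^ m = 1 := by
    rw [h1, mul_pow, hm1, one_mul]
    have : ∏ k, Units.fundSystem M k ^ e k = 1 :=
      Finset.prod_eq_one fun k _ => absurd k.2 (by omega)
    rw [this, one_pow]
  have h5 := hε (Pi.single i₀ (m : ℤ)) (by
    rw [Finset.prod_eq_single i₀]
    · rw [Pi.single_eq_same, zpow_natCast, h4]
    · intro i _ hi
      rw [Pi.single_eq_of_ne hi, zpow_zero]
    · intro h
      exact absurd (Finset.mem_univ _) h)
  have h6 : (m : ℤ) = 0 := by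
    have h7 := congrFun h5 i₀
    rwa [Pi.single_eq_same] at h7
  have : m = 0 := by exact_mod_cast h6
  omega

/-- **Finitely many number fields.** -/
theorem std_fields (A : QSub ℂ_[p]) (hA : FinQ A) :
    ∃ F : IntermediateField ℚ ℂ_[p], FiniteDimensional ℚ F ∧ Normal ℚ F ∧
      (∀ (n : ℕ) (K : Type) [Field K] [NumberField K] (σ : K →+* ℂ_[p]) (ε : Fin n → (𝓞 K)ˣ)
        (a : Fin n → ℂ_[p]), (∀ i, a i ∈ A) → RInd a → ∑ i, a i * L (σ ((ε i : 𝓞 K) : K)) = 0 →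
        ∀ i, ∃ m : ℕ, 1 ≤ m ∧ σ ((ε i : 𝓞 K) : K) ^ m ∈ F) ∧
      ∃ 𝒦 : Set (IntermediateField ℚ ℂ_[p]), 𝒦.Finite ∧ (∀ M ∈ 𝒦, M ≤ F ∧ M ≠ ⊥) ∧
        ∀ (K : Type) [Field K] [NumberField K], HasStd L A K ↔ ∃ M ∈ 𝒦, Nonempty (M →+* K) := by
  have hA' : FiniteDimensional (algebraicClosure ℚ ℂ_[p]) A := hA
  obtain ⟨F, h1, h2, h3⟩ := field_of_space hL A
  have h3' : ∀ (n : ℕ) (K : Type) [Field K] [NumberField K] (σ : K →+* ℂ_[p])
      (ε : Fin n → (𝓞 K)ˣ) (a : Fin n → ℂ_[p]), (∀ i, a i ∈ A) → RInd a →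
      ∑ i, a i * L (σ ((ε i : 𝓞 K) : K)) = 0 →
      ∀ i, ∃ m : ℕ, 1 ≤ m ∧ σ ((ε i : 𝓞 K) : K) ^ m ∈ F := by
    intro n K _ _ σ ε a ha hind h0
    exact h3 n a (fun i => σ ((ε i : 𝓞 K) : K)) ha hind (fun i => nearU_unit σ _) h0
  refine ⟨F, h1, h2, h3', ?_⟩
  let 𝒦 : Set (IntermediateField ℚ ℂ_[p]) :=
    {M | M ≤ F ∧ ∃ h : NumberField M, HasStd L A M}
  refine ⟨𝒦, ?_, ?_, ?_⟩
  · have hfin : Finite (IntermediateField ℚ F) :=
      ((Field.exists_primitive_element_iff_finite_intermediateField ℚ F).1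
        ⟨inferInstance, Field.exists_primitive_element ℚ F⟩)
    refine (Set.finite_range (fun N : IntermediateField ℚ F => IntermediateField.lift N)).subset ?_
    rintro M ⟨hM, -⟩
    exact ⟨IntermediateField.restrict hM, IntermediateField.lift_restrict hM⟩
  · rintro M ⟨hM, hN, hM2⟩
    refine ⟨hM, ?_⟩
    rintro rfl
    refine not_std_bot ?_ hM2
    exact IntermediateField.finrank_bot
  · intro K _ _
    constructor
    · intro hK
      obtain ⟨σ⟩ : Nonempty (K →+* ℂ_[p]) := inferInstance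
      obtain ⟨n, ε, a, hε, ha, hind, hrel⟩ := dual_of_std hL hK
      have h4 := h3' n K σ ε a ha hind (hrel σ)
      have h5 : HasDual L A (sub σ F) := dual_descend hL (sub σ F) ε a hε ha hind hrel (by
        intro i
        obtain ⟨m, hm, hmF⟩ := h4 i
        refine ⟨m, hm, ?_⟩
        rw [mem_sub, map_pow]
        exact hmF)
      let M : IntermediateField ℚ ℂ_[p] := (sub σ F).map (RingHom.toRatAlgHom σ)
      let e : sub σ F ≃ₐ[ℚ] M := (sub σ F).equivMap (RingHom.toRatAlgHom σ)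
      have hMfin : FiniteDimensional ℚ M := e.toLinearEquiv.finiteDimensional
      have hMN : NumberField M := { to_charZero := inferInstance, to_finiteDimensional := hMfin }
      refine ⟨M, ⟨?_, hMN, ?_⟩, ⟨((algebraMap (sub σ F) K).comp (e.symm : M →+* sub σ F))⟩⟩
      · rintro _ ⟨z, hz, rfl⟩
        exact hz
      · exact std_push hL (e : sub σ F →+* M) (std_of_dual hL h5)
    · rintro ⟨M, ⟨hM, hN, hK⟩, ⟨f⟩⟩
      exact std_push hL f hK

end Pool.Agent.Q244.LK
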